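import Mathlib
import Pool.Agent.R579.DrazinDefs

set_option autoImplicit false

namespace Pool.Agent.Results.MP_632fda_an.Q2True

open Pool.Agent.R579.Drazin Submodule

variable {H K : Type} [NormedAddCommGroup H] [InnerProductSpace ℂ H]
  [NormedAddCommGroup K] [InnerProductSpace ℂ K]

lemma snd_pow (A : H →L[ℂ] H) (B : K →L[ℂ] K) (C : K →L[ℂ] H) (k : ℕ) (z : H × K) :
    ((MC A B C ^ k) z).2 = (B ^ k) z.2 := by
  induction k generalizing z with
  | zero => rfl
  | succ k ih =>
    rw [pow_succ_apply', ih, pow_succ_apply']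
    rfl

lemma ker_part (A : H →L[ℂ] H) (B : K →L[ℂ] K) (C : K →L[ℂ] H) (k : ℕ) (h : H) :
    (MC A B C ^ k) (h, 0) = ((A ^ k) h, 0) := by
  induction k generalizing h with
  | zero => rfl
  | succ k ih =>
    rw [pow_succ_apply', pow_succ_apply', MC_apply]
    simp only [map_zero, add_zero]
    exact ih (A h)

/-- **Q2 is true.**  Condition (iii) is not needed. -/
theorem result [CompleteSpace H] [CompleteSpace K] (A : H →L[ℂ] H) (B : K →L[ℂ] K)
    (hB : RightDrazin B) (p : ℕ) (hp : GoodP A B p) (hE : CondE A B p)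
    (C : K →L[ℂ] H) (hC : Admissible A B p C) : DrazinInvertible (MC A B C) := by
  obtain ⟨-, ⟨a, hap, ha⟩, ⟨b, hbp, hb⟩⟩ := hp
  obtain ⟨⟨J, hJ⟩, -⟩ := hC
  -- stabilised kernels and ranges
  have hker : kerPow A (p + 1) = kerPow A p := by
    rw [ker_stable A ha.1 hap, ker_stable A ha.1 (by omega)]
  have hran : ranPow B (p + 1) = ranPow B p := by
    rw [ran_stable B hb.1 hbp, ran_stable B hb.1 (by omega)]
  have hRclosed : IsClosed (ranPow B p : Set K) := by
    obtain ⟨c, hc, hcl⟩ := hB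
    have : c = b := hc.unique hb
    subst this
    rw [ran_stable B hb.1 hbp]
    exact hcl
  have hTclosed : IsClosed ((kerPow B 1 ⊓ ranPow B p : Submodule ℂ K) : Set K) := by
    rw [Submodule.coe_inf]
    apply IsClosed.inter _ hRclosed
    exact ContinuousLinearMap.isClosed_ker (B ^ 1)
  have hT : spT B p = kerPow B 1 ⊓ ranPow B p :=
    IsClosed.submodule_topologicalClosure_eq hTclosed
  have : CompleteSpace (spS A p) := hE.1.completeSpace_coe
  set M := MC A B C with hM
  -- (c)
  have hc : ∀ z : H × K, z.2 ∈ ranPow B p → (M z).1 ∈ kerPow A p → (M z).2 = 0 →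
      z.1 ∈ kerPow A p ∧ z.2 = 0 := by
    rintro ⟨h, r⟩ hr h1 h2
    simp only [hM, MC_apply] at hr h1 h2
    have hrT : r ∈ spT B p := by
      rw [hT]
      refine ⟨?_, hr⟩
      show (B ^ 1) r = 0
      rw [pow_one]
      exact h2
    have e1 : C r ∈ spS A p := by
      have : C r = (A h + C r) - A h := by abel
      rw [this]
      apply Submodule.sub_mem
      · exact Submodule.mem_sup_right h1
      · apply Submodule.mem_sup_left
        rw [mem_ranPow]
        exact ⟨h, by rw [pow_one]⟩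
    have e2 : C r = (J ⟨r, hrT⟩ : H) := hJ ⟨r, hrT⟩
    have e3 : (J ⟨r, hrT⟩ : H) = 0 := by
      rw [e2] at e1
      exact inner_self_eq_zero.1 (Submodule.inner_right_of_mem_orthogonal e1 (J ⟨r, hrT⟩).2)
    have e4 : r = 0 := by
      have h7 : J ⟨r, hrT⟩ = 0 := Subtype.ext e3
      have h8 := (map_eq_zero_iff J J.injective).1 h7
      exact congrArg Subtype.val h8
    refine ⟨?_, e4⟩
    rw [e4, map_zero, add_zero] at h1
    show h ∈ kerPow A p
    rw [← hker, mem_kerPow, pow_succ_apply']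
    exact h1
  -- (d)
  have hd : ∀ z : H × K, z.2 ∈ ranPow B p → ∃ w : H × K, w.2 ∈ ranPow B p ∧
      ∃ n ∈ kerPow A p, z = M w + (n, 0) := by
    rintro ⟨g, s⟩ hs
    have hs' : s ∈ ranPow B (p + 1) := by rw [hran]; exact hs
    obtain ⟨y, hy⟩ := hs'
    have hy' : B ((B ^ p) y) = s := by rw [← pow_succ_apply]; exact hy
    obtain ⟨u, hu, v, hv, huv⟩ :=
      Submodule.exists_add_mem_mem_orthogonal (K := spS A p) (g - C ((B ^ p) y))
    obtain ⟨a', ha', n, hn, han⟩ := Submodule.mem_sup.1 hu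
    obtain ⟨h, hh⟩ := ha'
    have hh' : A h = a' := by
      have : (A ^ 1) h = a' := hh
      rwa [pow_one] at this
    obtain ⟨t, ht⟩ := J.surjective ⟨v, hv⟩
    have htT : (t : K) ∈ kerPow B 1 ⊓ ranPow B p := by rw [← hT]; exact t.2
    have hBt : B t = 0 := by
      have : (B ^ 1) (t : K) = 0 := htT.1
      rwa [pow_one] at this
    have hCt : C t = v := by
      rw [hJ t, ht]
    refine ⟨(h, (B ^ p) y + t), ?_, n, hn, ?_⟩
    · exact Submodule.add_mem _ ⟨y, rfl⟩ htT.2
    · rw [hM, MC_apply]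
      simp only [map_add, Prod.mk_add_mk, hh', hCt, hBt, hy', add_zero, Prod.mk.injEq, and_true]
      have : g = C ((B ^ p) y) + (u + v) := by rw [← huv]; abel
      rw [this, ← han]
      abel
  have hsnd : ∀ k, p ≤ k → ∀ z, ((M ^ k) z).2 ∈ ranPow B p := by
    intro k hk z
    apply ranPow_anti B hk
    rw [mem_ranPow]
    exact ⟨z.2, (snd_pow A B C k z).symm⟩
  have hnil : ∀ n ∈ kerPow A p, (M ^ p) (n, (0 : K)) = 0 := by
    intro n hn
    rw [hM, ker_part]
    rw [mem_kerPow] at hn
    rw [hn]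
    rfl
  constructor
  · -- ascent
    have key : ∀ j, ∀ z, ((M ^ (p + j)) z).1 ∈ kerPow A p → ((M ^ (p + j)) z).2 = 0 →
        ((M ^ p) z).1 ∈ kerPow A p ∧ ((M ^ p) z).2 = 0 := by
      intro j
      induction j with
      | zero => intro z h1 h2; exact ⟨h1, h2⟩
      | succ j ih =>
        intro z h1 h2
        rw [← add_assoc, pow_succ_apply] at h1 h2
        obtain ⟨h3, h4⟩ := hc _ (hsnd (p + j) (by omega) z) h1 h2
        exact ih z h3 h4
    have h1 : kerPow M (p + p + 1) = kerPow M (p + p) := by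
      apply le_antisymm _ (kerPow_mono M (by omega))
      intro z hz
      rw [mem_kerPow, add_assoc] at hz
      obtain ⟨h3, h4⟩ := key (p + 1) z (by rw [hz]; exact Submodule.zero_mem _) (by rw [hz]; rfl)
      rw [mem_kerPow, pow_add_apply]
      have : (M ^ p) z = (((M ^ p) z).1, (0 : K)) := Prod.ext rfl h4
      rw [this]
      exact hnil _ h3
    obtain ⟨k, -, hk⟩ := hasAscent_of M h1
    exact ⟨k, hk⟩
  · -- descent
    have key : ∀ j, ∀ z : H × K, z.2 ∈ ranPow B p → ∃ w : H × K, w.2 ∈ ranPow B p ∧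
        (M ^ p) z = (M ^ (p + j)) w := by
      intro j
      induction j with
      | zero => intro z hz; exact ⟨z, hz, rfl⟩
      | succ j ih =>
        intro z hz
        obtain ⟨w, hw, n, hn, hzw⟩ := hd z hz
        obtain ⟨w', hw', he⟩ := ih w hw
        refine ⟨w', hw', ?_⟩
        rw [hzw, map_add, hnil n hn, add_zero, ← add_assoc, pow_succ_apply (k := p + j), ← he,
          ← pow_succ_apply', pow_succ_apply]
    have h1 : ranPow M (p + p + 1) = ranPow M (p + p) := by
      apply le_antisymm (ranPow_anti M (by omega))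
      rintro z ⟨w, hw⟩
      have hw' : (M ^ p) ((M ^ p) w) = z := by rw [← pow_add_apply]; exact hw
      obtain ⟨w', -, he⟩ := key (p + 1) _ (hsnd p le_rfl w)
      refine ⟨w', ?_⟩
      show (M ^ (p + p + 1)) w' = z
      rw [add_assoc, ← he, hw']
    obtain ⟨k, -, hk⟩ := hasDescent_of M h1
    exact ⟨k, hk⟩

end Pool.Agent.Results.MP_632fda_an.Q2True
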